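import Mathlib

/-! Coordinate complements of submodules of `ι → R`. -/

open Finset Module

namespace Pool.Agent.H335R2.Obs

theorem coord {R : Type*} [CommRing R] [IsDomain R] [IsNoetherianRing R] {ι : Type*} [Fintype ι]
    [DecidableEq ι] (U : Submodule R (ι → R)) :
    ∃ E : Finset ι, (univ \ E).card = finrank R U ∧
      ∀ u ∈ U, (∀ i ∉ E, u i = 0) → u = 0 := by
  classical
  let good : Finset ι → Prop := fun E => ∀ u ∈ U, (∀ i ∉ E, u i = 0) → u = 0
  have h0 : good ∅ := fun u _ h => funext fun i => h i (by simp)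
  obtain ⟨E, hE, hmax⟩ : ∃ E, good E ∧ ∀ E', good E' → E'.card ≤ E.card := by
    have hne : (univ.filter good).Nonempty := ⟨∅, by simp [h0]⟩
    obtain ⟨E, hE, hm⟩ := Finset.exists_max_image _ Finset.card hne
    exact ⟨E, (Finset.mem_filter.mp hE).2, fun E' hE' => hm E' (by simp [hE'])⟩
  refine ⟨E, ?_, hE⟩
  have hex : ∀ j : {j // j ∉ E}, ∃ u ∈ U, u j.1 ≠ 0 ∧ ∀ i ∉ E, i ≠ j.1 → u i = 0 := by
    rintro ⟨j, hj⟩
    have h1 : ¬ good (insert j E) := by
      intro h
      have := hmax _ h
      rw [Finset.card_insert_of_notMem hj] at this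
      omega
    simp only [good] at h1
    push Not at h1
    obtain ⟨u, hu, hu1, hu0⟩ := h1
    refine ⟨u, hu, ?_, ?_⟩
    · intro huj
      apply hu0
      apply hE u hu
      intro i hi
      by_cases hij : i = j
      · rw [hij]; exact huj
      · exact hu1 i (by simp [hi, hij])
    · intro i hi hij
      exact hu1 i (by simp only [Finset.mem_insert, not_or]; exact ⟨hij, hi⟩)
  choose u hu hu1 hu2 using hex
  have hli : LinearIndependent R (fun j : {j // j ∉ E} => (⟨u j, hu j⟩ : U)) := by
    rw [Fintype.linearIndependent_iff]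
    intro c hc j
    have h1 := congrArg (fun v : U => (v : ι → R) j.1) hc
    simp only [AddSubmonoidClass.coe_finset_sum, SetLike.mk_smul_mk, Finset.sum_apply,
      Pi.smul_apply, smul_eq_mul, ZeroMemClass.coe_zero, Pi.zero_apply] at h1
    rw [Finset.sum_eq_single j] at h1
    · exact (mul_eq_zero.mp h1).resolve_right (hu1 j)
    · intro j' _ hj'
      rw [hu2 j' j.1 j.2 (fun h => hj' (Subtype.ext h.symm)), mul_zero]
    · simp
  have h1 := hli.fintype_card_le_finrank
  let res : U →ₗ[R] ({j // j ∉ E} → R) :=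
    (LinearMap.funLeft R R (Subtype.val : {j // j ∉ E} → ι)).comp U.subtype
  have hinj : Function.Injective res := by
    rw [← LinearMap.ker_eq_bot, LinearMap.ker_eq_bot']
    rintro ⟨v, hv⟩ h
    apply Subtype.ext
    apply hE v hv
    intro i hi
    exact congrFun h ⟨i, hi⟩
  have h2 := LinearMap.finrank_le_finrank_of_injective hinj
  rw [finrank_fintype_fun_eq_card] at h2
  have h3 : Fintype.card {j // j ∉ E} = (univ \ E).card := by
    rw [Fintype.card_subtype]
    congr 1
    ext i; simp
  omega

end Pool.Agent.H335R2.Obs
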