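import Mathlib
import Pool.Agent.H301R2.TR.GenEntry
import Pool.Agent.H364R2.Pigeon

/-! Iterated invariant derivations of monomials (TEAM-TR). -/

open MvPolynomial Finset

namespace Pool.Agent.H335R2.Obs

open Pool.Agent.H364R2 Pool.Agent.H301R2.TR

theorem LamF_succ {R : Type*} [CommRing R] [Algebra ℂ R] (D : Derivation ℂ R R) (lam x : R)
    (hl : D lam = 0) (hx : D x = 1) (k t : ℕ) :
    D (LamF lam k t x) + lam * LamF lam k t x = LamF lam k (t + 1) x := by
  have hD : D (LamF lam k t x) = ∑ j ∈ range (t + 1), (t.choose j : R) * lam ^ (t - j) *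
      (k.descFactorial (j + 1) : R) * x ^ (k - (j + 1)) := by
    unfold LamF
    rw [map_sum]
    apply Finset.sum_congr rfl
    intro j _
    have h1 : D (lam ^ (t - j)) = 0 := by
      rw [Derivation.leibniz_pow, hl, smul_zero, smul_zero]
    have h2 : D ((t.choose j : R)) = 0 := Derivation.map_natCast D _
    have h3 : D ((k.descFactorial j : R)) = 0 := Derivation.map_natCast D _
    have h4 : D (x ^ (k - j)) = ((k - j : ℕ) : R) * x ^ (k - (j + 1)) := by
      rw [Derivation.leibniz_pow, hx]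
      simp only [smul_eq_mul, mul_one, nsmul_eq_mul, Nat.sub_sub]
    rw [Derivation.leibniz, Derivation.leibniz, Derivation.leibniz, h1, h2, h3, h4]
    simp only [smul_eq_mul, mul_zero, add_zero, zero_add]
    rw [Nat.descFactorial_succ]
    push_cast
    ring
  rw [hD]
  unfold LamF
  rw [Finset.sum_range_succ' (n := t + 1)]
  have hsplit : ∑ j ∈ range (t + 1), (((t + 1).choose (j + 1) : ℕ) : R) * lam ^ (t + 1 - (j + 1)) *
      (k.descFactorial (j + 1) : R) * x ^ (k - (j + 1)) =
      ∑ j ∈ range (t + 1), (t.choose j : R) * lam ^ (t - j) *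
      (k.descFactorial (j + 1) : R) * x ^ (k - (j + 1)) +
      ∑ j ∈ range (t + 1), (t.choose (j + 1) : R) * lam ^ (t - j) *
      (k.descFactorial (j + 1) : R) * x ^ (k - (j + 1)) := by
    rw [← Finset.sum_add_distrib]
    apply Finset.sum_congr rfl
    intro j _
    rw [Nat.choose_succ_succ, Nat.add_sub_add_right]
    push_cast
    ring
  rw [hsplit, add_assoc]
  congr 1
  have e1 : ∑ j ∈ range (t + 1), (t.choose (j + 1) : R) * lam ^ (t - j) *
      (k.descFactorial (j + 1) : R) * x ^ (k - (j + 1)) = ∑ j ∈ range t, (t.choose (j + 1) : R) *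
      lam ^ (t - j) * (k.descFactorial (j + 1) : R) * x ^ (k - (j + 1)) := by
    rw [Finset.sum_range_succ, Nat.choose_succ_self]; simp
  rw [e1, Finset.sum_range_succ' (n := t) (f := fun j => (t.choose j : R) * lam ^ (t - j) *
      (k.descFactorial j : R) * x ^ (k - j)), mul_add, Finset.mul_sum]
  congr 1
  · apply Finset.sum_congr rfl
    intro j hj
    have hj' := Finset.mem_range.mp hj
    have : t - j = (t - (j + 1)) + 1 := by omega
    rw [this, pow_succ]
    ring
  · simp only [Nat.choose_zero_right, Nat.cast_one, Nat.sub_zero, Nat.descFactorial_zero, one_mul,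
      mul_one]
    rw [pow_succ]; ring

/-- index type of the coordinates of `G = Ga^A x Gm^b` -/
abbrev Ix {w : ℕ} (A : Finset (Fin w)) (b : ℕ) := {i // i ∈ A} ⊕ Fin b

/-- which coordinates are additive -/
def ad {w : ℕ} (A : Finset (Fin w)) (b : ℕ) : Ix A b → Bool := Sum.elim (fun _ => true) (fun _ => false)

/-- the derivations -/
noncomputable def Wd {w b : ℕ} (A : Finset (Fin w)) (γ : Fin w → Fin b → ℂ) (k : Fin w) : Ix A b → ℂ :=
  Sum.elim (fun i => if (i : Fin w) = k then 1 else 0) (fun j => γ k j)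

/-- the points -/
noncomputable def pt {w b l : ℕ} (A : Finset (Fin w)) (α : Fin w → Fin l → ℂ) (χ : Fin b → Fin l → ℂ)
    (s : Fin l → ℤ) : Ix A b → ℂ :=
  Sum.elim (fun i => ∑ p, α i p * (s p : ℂ)) (fun j => ∏ p, χ j p ^ s p)

/-- variable or zero -/
noncomputable def Xv {w : ℕ} (A : Finset (Fin w)) (b : ℕ) (i : Fin w) : MvPolynomial (Ix A b) ℂ :=
  if h : i ∈ A then X (Sum.inl ⟨i, h⟩) else 0

/-- derived monomial -/
noncomputable def Phi {w b : ℕ} (A : Finset (Fin w)) (γ : Fin w → Fin b → ℂ) (k : Fin w → ℕ)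
    (m : Fin b → ℕ) (t : Fin w → ℕ) : MvPolynomial (Ix A b) ℂ :=
  (∏ i, LamF (C (∑ j, γ i j * (m j : ℂ))) (k i) (t i) (Xv A b i)) * ∏ j, X (Sum.inr j) ^ m j

theorem der_prod_mult {w b : ℕ} (A : Finset (Fin w)) (γ : Fin w → Fin b → ℂ) (m : Fin b → ℕ)
    (k0 : Fin w) :
    der (ad A b) (Wd A γ k0) (∏ j, (X (Sum.inr j) : MvPolynomial (Ix A b) ℂ) ^ m j) =
      C (∑ j, γ k0 j * (m j : ℂ)) * ∏ j, X (Sum.inr j) ^ m j := by
  classical
  have key : ∀ S : Finset (Fin b), der (ad A b) (Wd A γ k0)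
      (∏ j ∈ S, (X (Sum.inr j) : MvPolynomial (Ix A b) ℂ) ^ m j) =
      C (∑ j ∈ S, γ k0 j * (m j : ℂ)) * ∏ j ∈ S, X (Sum.inr j) ^ m j := by
    intro S
    induction S using Finset.induction_on with
    | empty => simp
    | insert j S hj ih =>
      rw [Finset.prod_insert hj, Finset.sum_insert hj, Derivation.leibniz, ih, smul_eq_mul,
        smul_eq_mul, Derivation.leibniz_pow, der_X]
      have h1 : ad A b (Sum.inr j) = false := rfl
      have h2 : Wd A γ k0 (Sum.inr j) = γ k0 j := rfl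
      rw [h1, h2]
      simp only [Bool.false_eq_true, if_false, smul_eq_mul, nsmul_eq_mul]
      rw [map_add, map_mul]
      have h3 : (C ((m j : ℕ) : ℂ) : MvPolynomial (Ix A b) ℂ) = (m j : MvPolynomial (Ix A b) ℂ) := by
        simp
      rw [h3]
      rcases Nat.eq_zero_or_pos (m j) with h0 | h0
      · rw [h0]; simp
      · have h4 : (X (Sum.inr j) : MvPolynomial (Ix A b) ℂ) ^ m j =
            X (Sum.inr j) ^ (m j - 1) * X (Sum.inr j) := by
          rw [← pow_succ]; congr 1; omega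
        rw [h4]; ring
  exact key Finset.univ

theorem der_Xv {w b : ℕ} (A : Finset (Fin w)) (γ : Fin w → Fin b → ℂ) (k0 i : Fin w) :
    der (ad A b) (Wd A γ k0) (Xv A b i) = if i = k0 ∧ i ∈ A then 1 else 0 := by
  unfold Xv
  by_cases h : i ∈ A
  · rw [dif_pos h, der_X]
    have h1 : ad A b (Sum.inl ⟨i, h⟩) = true := rfl
    have h2 : Wd A γ k0 (Sum.inl ⟨i, h⟩) = if i = k0 then 1 else 0 := rfl
    rw [h1, h2]
    by_cases h3 : i = k0
    · simp [h3] at h ⊢
      simp [h]
    · simp [h3]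
  · rw [dif_neg h, map_zero]
    simp [h]

theorem der_Phi {w b : ℕ} (A : Finset (Fin w)) (γ : Fin w → Fin b → ℂ) (k : Fin w → ℕ)
    (hk : ∀ i ∉ A, k i = 0) (m : Fin b → ℕ) (t : Fin w → ℕ) (k0 : Fin w) :
    der (ad A b) (Wd A γ k0) (Phi A γ k m t) = Phi A γ k m (Function.update t k0 (t k0 + 1)) := by
  classical
  set D := der (ad A b) (Wd A γ k0) with hD
  have hC : ∀ c : ℂ, D (C c) = 0 := fun c => by rw [hD, der_C]
  -- derivative of one factor
  have hne : ∀ i, i ≠ k0 → D (LamF (C (∑ j, γ i j * (m j : ℂ))) (k i) (t i) (Xv A b i)) = 0 := by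
    intro i hi
    unfold LamF
    rw [map_sum]
    apply Finset.sum_eq_zero
    intro j _
    have h1 : D (C (∑ j, γ i j * (m j : ℂ)) ^ (t i - j)) = 0 := by
      rw [Derivation.leibniz_pow, hC, smul_zero, smul_zero]
    have h2 : D (((t i).choose j : MvPolynomial (Ix A b) ℂ)) = 0 := Derivation.map_natCast D _
    have h3 : D (((k i).descFactorial j : MvPolynomial (Ix A b) ℂ)) = 0 := Derivation.map_natCast D _
    have h4 : D (Xv A b i ^ (k i - j)) = 0 := by
      rw [Derivation.leibniz_pow, hD, der_Xv, if_neg (fun h => hi h.1), smul_zero, smul_zero]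
    rw [Derivation.leibniz, Derivation.leibniz, Derivation.leibniz, h1, h2, h3, h4]
    simp
  have heq : D (LamF (C (∑ j, γ k0 j * (m j : ℂ))) (k k0) (t k0) (Xv A b k0)) +
      C (∑ j, γ k0 j * (m j : ℂ)) * LamF (C (∑ j, γ k0 j * (m j : ℂ))) (k k0) (t k0) (Xv A b k0) =
      LamF (C (∑ j, γ k0 j * (m j : ℂ))) (k k0) (t k0 + 1) (Xv A b k0) := by
    by_cases hA : k0 ∈ A
    · exact LamF_succ D _ _ (hC _) (by rw [hD, der_Xv, if_pos ⟨rfl, hA⟩]) _ _
    · rw [hk k0 hA, LamF_zero, LamF_zero, Derivation.leibniz_pow, hC, smul_zero, smul_zero, zero_add,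
        pow_succ, mul_comm]
  unfold Phi
  rw [Derivation.leibniz, hD, der_prod_mult, ← hD, smul_eq_mul, smul_eq_mul]
  rw [← Finset.mul_prod_erase Finset.univ _ (Finset.mem_univ k0),
    ← Finset.mul_prod_erase Finset.univ
      (fun i => LamF (C (∑ j, γ i j * (m j : ℂ))) (k i) (Function.update t k0 (t k0 + 1) i) (Xv A b i))
      (Finset.mem_univ k0)]
  simp only [Function.update_self]
  have hrest : D (∏ i ∈ Finset.univ.erase k0,
      LamF (C (∑ j, γ i j * (m j : ℂ))) (k i) (t i) (Xv A b i)) = 0 := by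
    have : ∀ S : Finset (Fin w), k0 ∉ S → D (∏ i ∈ S,
      LamF (C (∑ j, γ i j * (m j : ℂ))) (k i) (t i) (Xv A b i)) = 0 := by
      intro S
      induction S using Finset.induction_on with
      | empty => intro _; simp
      | insert i S hi ih =>
        intro h0
        rw [Finset.prod_insert hi, Derivation.leibniz, ih (fun h => h0 (Finset.mem_insert_of_mem h)),
          hne i (fun h => h0 (by rw [← h]; exact Finset.mem_insert_self i S))]
        simp
    exact this _ (by simp)
  have hrest2 : ∏ i ∈ Finset.univ.erase k0,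
      LamF (C (∑ j, γ i j * (m j : ℂ))) (k i) (Function.update t k0 (t k0 + 1) i) (Xv A b i) =
      ∏ i ∈ Finset.univ.erase k0,
      LamF (C (∑ j, γ i j * (m j : ℂ))) (k i) (t i) (Xv A b i) := by
    apply Finset.prod_congr rfl
    intro i hi
    rw [Function.update_of_ne (Finset.ne_of_mem_erase hi)]
  rw [hrest2, Derivation.leibniz, hrest, smul_eq_mul, smul_eq_mul, ← heq]
  ring

/-- iterated derivative of a monomial -/
theorem derIter_Phi {w b : ℕ} (A : Finset (Fin w)) (γ : Fin w → Fin b → ℂ) (k : Fin w → ℕ)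
    (hk : ∀ i ∉ A, k i = 0) (m : Fin b → ℕ) (ks : List (Fin w)) :
    derIter (ad A b) (Wd A γ) ks (Phi A γ k m 0) = Phi A γ k m (fun i => ks.count i) := by
  induction ks with
  | nil => rfl
  | cons k0 ks ih =>
    change der (ad A b) (Wd A γ k0) (derIter (ad A b) (Wd A γ) ks (Phi A γ k m 0)) = _
    rw [ih, der_Phi A γ k hk]
    congr 1
    funext i
    by_cases h : i = k0
    · subst h; simp
    · rw [Function.update_of_ne h, List.count_cons_of_ne (Ne.symm h)]

end Pool.Agent.H335R2.Obs
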