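import Mathlib
import Pool.Agent.H335R2.Obs.DerMon

/-! Points, evaluation, and the auxiliary polynomial (TEAM-TR). -/

open MvPolynomial Finset

namespace Pool.Agent.H335R2.Obs

open Pool.Agent.H364R2 Pool.Agent.H301R2.TR

section Points

variable {w b l : ℕ} (A : Finset (Fin w)) (α : Fin w → Fin l → ℂ) (χ : Fin b → Fin l → ℂ)

theorem isG_pt (hχ : ∀ j p, χ j p ≠ 0) (s : Fin l → ℤ) : IsG (ad A b) (pt A α χ s) := by
  rintro (i | j) h
  · exact absurd h (by simp [ad])
  · change ∏ p, χ j p ^ s p ≠ 0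
    exact Finset.prod_ne_zero_iff.mpr (fun p _ => zpow_ne_zero _ (hχ j p))

theorem pt_zero : pt A α χ 0 = gone (ad A b) := by
  funext i
  rcases i with i | j <;> simp [pt, gone, ad]

theorem pt_add (hχ : ∀ j p, χ j p ≠ 0) (s s' : Fin l → ℤ) :
    gmul (ad A b) (pt A α χ s) (pt A α χ s') = pt A α χ (s + s') := by
  funext i
  rcases i with i | j
  · simp only [pt, gmul, ad, Sum.elim_inl, if_true, Pi.add_apply]
    rw [← Finset.sum_add_distrib]
    apply Finset.sum_congr rfl
    intro p _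
    push_cast; ring
  · simp only [pt, gmul, ad, Sum.elim_inr, Bool.false_eq_true, if_false, Pi.add_apply]
    rw [← Finset.prod_mul_distrib]
    apply Finset.prod_congr rfl
    intro p _
    rw [zpow_add₀ (hχ j p)]

theorem prodG_map_pt (hχ : ∀ j p, χ j p ≠ 0) (ss : List (Fin l → ℤ)) :
    prodG (ad A b) (ss.map (pt A α χ)) = pt A α χ ss.sum := by
  induction ss with
  | nil => simp [prodG, pt_zero]
  | cons s ss ih =>
    rw [List.map_cons, List.sum_cons, ← pt_add A α χ hχ, ← ih]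
    rfl

theorem eval_Phi (γ : Fin w → Fin b → ℂ) (k : Fin w → ℕ)
    (hk : ∀ i ∉ A, k i = 0) (m : Fin b → ℕ) (t : Fin w → ℕ) (s : Fin l → ℕ) :
    eval (pt A α χ (fun p => (s p : ℤ))) (Phi A γ k m t) = entG γ α χ k m t s := by
  unfold Phi entG
  rw [map_mul, map_prod, map_prod]
  congr 1
  · apply Finset.prod_congr rfl
    intro i _
    rw [LamF_map, eval_C]
    by_cases h : i ∈ A
    · congr 1
      rw [Xv, dif_pos h, eval_X]
      simp [pt]
    · rw [hk i h, LamF_zero, LamF_zero]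
  · apply Finset.prod_congr rfl
    intro j _
    rw [map_pow, eval_X]
    simp [pt]

end Points

/-- exponent of the monomial -/
noncomputable def expo {w : ℕ} (A : Finset (Fin w)) {b : ℕ} (k : Fin w → ℕ) (m : Fin b → ℕ) :
    Ix A b →₀ ℕ :=
  Finsupp.equivFunOnFinite.symm (Sum.elim (fun i => k i) m)

theorem Phi_zero {w b : ℕ} (A : Finset (Fin w)) (γ : Fin w → Fin b → ℂ) (k : Fin w → ℕ)
    (hk : ∀ i ∉ A, k i = 0) (m : Fin b → ℕ) :
    Phi A γ k m 0 = monomial (expo A k m) 1 := by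
  classical
  have h1 : ∀ i, LamF (C (∑ j, γ i j * (m j : ℂ)) : MvPolynomial (Ix A b) ℂ) (k i)
      ((0 : Fin w → ℕ) i) (Xv A b i) = Xv A b i ^ k i := by
    intro i
    simp [LamF]
  unfold Phi
  simp only [h1]
  have h2 : ∏ i, Xv A b i ^ k i = ∏ i : {i // i ∈ A}, (X (Sum.inl i) : MvPolynomial (Ix A b) ℂ) ^ k i := by
    rw [← Finset.prod_subset (Finset.subset_univ A)]
    · rw [← Finset.prod_coe_sort A]
      apply Finset.prod_congr rfl
      intro i _
      rw [Xv, dif_pos i.2]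
    · intro i _ hi
      rw [hk i hi, pow_zero]
  rw [h2, monomial_eq, C_1, one_mul, Finsupp.prod_fintype _ _ (fun i => pow_zero _),
    Fintype.prod_sum_type]
  rfl

/-- the auxiliary polynomial -/
noncomputable def aux {w b : ℕ} (A : Finset (Fin w)) (γ : Fin w → Fin b → ℂ) {J : Type} [Fintype J]
    (p : J → ℂ) (k : J → Fin w → ℕ) (m : J → Fin b → ℕ) : MvPolynomial (Ix A b) ℂ :=
  ∑ j, C (p j) * Phi A γ (k j) (m j) 0

theorem derIter_finsum {σ : Type} (add : σ → Bool) {w : ℕ} (W : Fin w → σ → ℂ) (ks : List (Fin w))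
    {J : Type} (S : Finset J) (p : J → ℂ) (f : J → MvPolynomial σ ℂ) :
    derIter add W ks (∑ j ∈ S, C (p j) * f j) = ∑ j ∈ S, C (p j) * derIter add W ks (f j) := by
  induction ks with
  | nil => rfl
  | cons k ks ih =>
    change der add (W k) (derIter add W ks _) = _
    rw [ih, map_sum]
    apply Finset.sum_congr rfl
    intro j _
    rw [Derivation.leibniz, der_C, smul_zero, add_zero, smul_eq_mul]
    rfl

theorem eval_derIter_aux {w b l : ℕ} (A : Finset (Fin w)) (α : Fin w → Fin l → ℂ)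
    (χ : Fin b → Fin l → ℂ) (γ : Fin w → Fin b → ℂ) {J : Type} [Fintype J]
    (p : J → ℂ) (k : J → Fin w → ℕ) (m : J → Fin b → ℕ) (hk : ∀ j, ∀ i ∉ A, k j i = 0)
    (ks : List (Fin w)) (s : Fin l → ℕ) :
    eval (pt A α χ (fun q => (s q : ℤ))) (derIter (ad A b) (Wd A γ) ks (aux A γ p k m)) =
      ∑ j, p j * entG γ α χ (k j) (m j) (fun i => ks.count i) s := by
  unfold aux
  rw [derIter_finsum, map_sum]
  apply Finset.sum_congr rfl
  intro j _
  rw [map_mul, eval_C, derIter_Phi A γ (k j) (hk j), eval_Phi A α χ γ (k j) (hk j)]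

theorem aux_ne_zero {w b : ℕ} (A : Finset (Fin w)) (γ : Fin w → Fin b → ℂ) {J : Type} [Fintype J]
    (p : J → ℂ) (k : J → Fin w → ℕ) (m : J → Fin b → ℕ) (hk : ∀ j, ∀ i ∉ A, k j i = 0)
    (hinj : ∀ j j', k j = k j' → m j = m j' → j = j') (hp : p ≠ 0) : aux A γ p k m ≠ 0 := by
  classical
  obtain ⟨j0, hj0⟩ : ∃ j, p j ≠ 0 := by
    by_contra h; push Not at h; exact hp (funext h)
  intro h0
  have h1 := congrArg (coeff (expo A (k j0) (m j0))) h0
  unfold aux at h1
  rw [coeff_sum, coeff_zero, Finset.sum_eq_single j0] at h1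
  · rw [Phi_zero A γ _ (hk j0), coeff_C_mul, coeff_monomial, if_pos rfl, mul_one] at h1
    exact hj0 h1
  · intro j _ hj
    rw [Phi_zero A γ _ (hk j), coeff_C_mul, coeff_monomial, if_neg, mul_zero]
    intro h
    apply hj
    have h2 : (Sum.elim (fun i : {i // i ∈ A} => k j i) (m j) : Ix A b → ℕ) =
        Sum.elim (fun i : {i // i ∈ A} => k j0 i) (m j0) := by
      have := Finsupp.equivFunOnFinite.symm.injective h
      exact this
    apply hinj
    · funext i
      by_cases hi : i ∈ A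
      · exact congrFun h2 (Sum.inl ⟨i, hi⟩)
      · rw [hk j i hi, hk j0 i hi]
    · funext q
      exact congrFun h2 (Sum.inr q)
  · simp

theorem aux_mem_box {w b : ℕ} (A : Finset (Fin w)) (γ : Fin w → Fin b → ℂ) {J : Type} [Fintype J]
    (p : J → ℂ) (k : J → Fin w → ℕ) (m : J → Fin b → ℕ) (hk : ∀ j, ∀ i ∉ A, k j i = 0)
    (K M : ℕ) (hkK : ∀ j i, k j i ≤ K) (hmM : ∀ j q, m j q ≤ M) :
    aux A γ p k m ∈ box ℂ (Sum.elim (fun _ => K) (fun _ => M) : Ix A b → ℕ) 1 := by
  classical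
  unfold aux
  apply Submodule.sum_mem
  intro j _
  rw [Phi_zero A γ _ (hk j), C_mul_monomial]
  apply monomial_mem_box
  rintro (i | q)
  · simpa [expo] using hkK j i
  · simpa [expo] using hmM j q

end Pool.Agent.H335R2.Obs
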