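import Mathlib
import Pool.Agent.H335R2.Obs.Points
import Pool.Agent.H335R2.Obs.Coord
import Pool.Agent.H335R2.T6
import Pool.Agent.H301R2.TR.GenMain
import Pool.Agent.H301R2.TR.Alg
import Pool.Agent.H340R2.StabGen

/-! The obstruction theorem: parametric form of the linear subgroup theorem (TEAM-TR). -/

open MvPolynomial Finset Module

namespace Pool.Agent.H335R2.Obs

open Pool.Agent.H364R2 Pool.Agent.H301R2.TR Pool.Agent.H335R2

/-- the group version of the zero estimate (proved by TEAM-TR in `zero_estimate_grp`) -/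
def ZEG : Prop := ∀ (σ : Type) [Fintype σ] [DecidableEq σ] (add : σ → Bool) (l : ℕ)
    (W : Fin l → σ → ℂ) (Γ₁ : Finset (σ → ℂ)) (T : ℕ)
    (F : MvPolynomial σ ℂ) (L : σ → ℕ), (∀ j, 1 ≤ L j) →
    (∀ g ∈ Γ₁, IsG add g) → F ≠ 0 → F ∈ box ℂ L 1 →
    (∀ (ks : List (Fin l)) (gs : List (σ → ℂ)), ks.length ≤ Fintype.card σ * T →
      gs.length ≤ Fintype.card σ → (∀ g ∈ gs, g ∈ Γ₁) →
      eval (prodG add gs) (derIter add W ks F) = 0) →
    ∃ P : Ideal (MvPolynomial σ ℂ), GPrime add P ∧ P ≠ ⊥ ∧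
      (∀ E : Finset σ, Indep P (E : Set σ) →
        ∀ Δ : Finset (σ → ℂ), Δ ⊆ Γ₁ →
        (∀ g ∈ Δ, ∀ g' ∈ Δ, trI add g P = trI add g' P → g = g') →
        ∀ (l' : ℕ) (W' : Fin l' → σ → ℂ), (∀ k, W' k ∈ Submodule.span ℂ (Set.range W)) →
        (∀ c : Fin l' → ℂ, (∀ f ∈ P, der add (fun j => ∑ k, c k * W' k j) f ∈ P) → c = 0) →
        Δ.card * (T / l' + 1) ^ l' ≤
          2 ^ ((Fintype.card σ + 1) * Fintype.card σ) * ∏ j ∈ Finset.univ \ E, L j)

section

variable {w b l : ℕ} (A : Finset (Fin w)) (γ : Fin w → Fin b → ℂ) (α : Fin w → Fin l → ℂ)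
  (χ : Fin b → Fin l → ℂ) (P : Ideal (MvPolynomial (Ix A b) ℂ))

/-- stabilising derivations -/
def WP : Submodule ℂ (Fin w → ℂ) where
  carrier := {c | ∀ f ∈ P, der (ad A b) (fun j => ∑ k, c k * Wd A γ k j) f ∈ P}
  zero_mem' := by
    intro f _
    rw [der_sum]
    simp
  add_mem' := by
    intro c d hc hd f hf
    have h1 := hc f hf
    have h2 := hd f hf
    rw [der_sum] at h1 h2 ⊢
    have h3 := P.add_mem h1 h2
    rw [← Finset.sum_add_distrib] at h3
    convert h3 using 2
    rw [Pi.add_apply, map_add]; ring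
  smul_mem' := by
    intro a c hc f hf
    have h1 := hc f hf
    rw [der_sum] at h1 ⊢
    have h3 := P.mul_mem_left (C a) h1
    rw [Finset.mul_sum] at h3
    convert h3 using 2
    rw [Pi.smul_apply, smul_eq_mul, map_mul]; ring

theorem trI_trI {σ : Type} (add : σ → Bool) (g h : σ → ℂ) (P : Ideal (MvPolynomial σ ℂ)) :
    trI add g (trI add h P) = trI add (gmul add g h) P := by
  ext f
  rw [mem_trI, mem_trI, mem_trI, tr_tr, gmul_comm]

theorem trI_gone {σ : Type} (add : σ → Bool) (P : Ideal (MvPolynomial σ ℂ)) :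
    trI add (gone add) P = P := by
  ext f
  rw [mem_trI, tr_gone]

/-- stabilising translations -/
def GPs (hχ : ∀ j p, χ j p ≠ 0) : AddSubgroup (Fin l → ℤ) where
  carrier := {s | trI (ad A b) (pt A α χ s) P = P}
  zero_mem' := by
    change trI (ad A b) (pt A α χ 0) P = P
    rw [pt_zero, trI_gone]
  add_mem' := by
    intro s s' hs hs'
    change trI (ad A b) (pt A α χ (s + s')) P = P
    change trI (ad A b) (pt A α χ s) P = P at hs
    change trI (ad A b) (pt A α χ s') P = P at hs'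
    rw [← pt_add A α χ hχ, ← trI_trI, hs', hs]
  neg_mem' := by
    intro s hs
    change trI (ad A b) (pt A α χ (-s)) P = P
    change trI (ad A b) (pt A α χ s) P = P at hs
    conv_lhs => rw [← hs]
    rw [trI_trI, pt_add A α χ hχ, neg_add_cancel, pt_zero, trI_gone]

/-- additive relations -/
def Af (hχ : ∀ j p, χ j p ≠ 0) : Submodule ℂ (Fin w → ℂ) where
  carrier := {a | (∀ i ∉ A, a i = 0) ∧ (∀ c ∈ WP A γ P, ∑ i, a i * c i = 0) ∧
    ∀ s ∈ GPs A α χ P hχ, ∑ i, a i * ∑ p, α i p * (s p : ℂ) = 0}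
  zero_mem' := by simp
  add_mem' := by
    rintro a a' ⟨h1, h2, h3⟩ ⟨h1', h2', h3'⟩
    refine ⟨fun i hi => ?_, fun c hc => ?_, fun s hs => ?_⟩
    · rw [Pi.add_apply, h1 i hi, h1' i hi, add_zero]
    · simp only [Pi.add_apply, add_mul, Finset.sum_add_distrib, h2 c hc, h2' c hc, add_zero]
    · simp only [Pi.add_apply, add_mul, Finset.sum_add_distrib, h3 s hs, h3' s hs, add_zero]
  smul_mem' := by
    rintro r a ⟨h1, h2, h3⟩
    refine ⟨fun i hi => ?_, fun c hc => ?_, fun s hs => ?_⟩
    · rw [Pi.smul_apply, h1 i hi, smul_zero]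
    · simp only [Pi.smul_apply, smul_eq_mul, mul_assoc, ← Finset.mul_sum, h2 c hc, mul_zero]
    · simp only [Pi.smul_apply, smul_eq_mul, mul_assoc, ← Finset.mul_sum, h3 s hs, mul_zero]

/-- multiplicative relations -/
def Rm (hχ : ∀ j p, χ j p ≠ 0) : AddSubgroup (Fin b → ℤ) where
  carrier := {m | (∀ c ∈ WP A γ P, ∑ j, (m j : ℂ) * ∑ i, c i * γ i j = 0) ∧
    ∀ s ∈ GPs A α χ P hχ, ∏ j, (∏ p, χ j p ^ s p) ^ m j = 1}
  zero_mem' := by simp
  add_mem' := by
    rintro m m' ⟨h1, h2⟩ ⟨h1', h2'⟩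
    refine ⟨fun c hc => ?_, fun s hs => ?_⟩
    · simp only [Pi.add_apply, Int.cast_add, add_mul, Finset.sum_add_distrib, h1 c hc, h1' c hc,
        add_zero]
    · have h0 : ∀ j, (∏ p, χ j p ^ s p) ≠ 0 := fun j =>
        Finset.prod_ne_zero_iff.mpr (fun p _ => zpow_ne_zero _ (hχ j p))
      simp only [Pi.add_apply, zpow_add₀ (h0 _), Finset.prod_mul_distrib, h2 s hs, h2' s hs, mul_one]
  neg_mem' := by
    rintro m ⟨h1, h2⟩
    refine ⟨fun c hc => ?_, fun s hs => ?_⟩
    · simp only [Pi.neg_apply, Int.cast_neg, neg_mul, Finset.sum_neg_distrib, h1 c hc, neg_zero]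
    · simp only [Pi.neg_apply, zpow_neg, Finset.prod_inv_distrib, h2 s hs, inv_one]

end


section Obstruction

variable {w b l : ℕ} (A : Finset (Fin w)) (γ : Fin w → Fin b → ℂ) (α : Fin w → Fin l → ℂ)
  (χ : Fin b → Fin l → ℂ)

theorem finrank_toInt {n : ℕ} (G : AddSubgroup (Fin n → ℤ)) :
    ∃ E : Finset (Fin n), (univ \ E).card = finrank ℤ G ∧
      ∀ u ∈ G, (∀ i ∉ E, u i = 0) → u = 0 :=
  coord (R := ℤ) (AddSubgroup.toIntSubmodule G)

/-- the key inequality for a polynomial with many zeros -/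
theorem key_ineq (hZ : ZEG) (hχ : ∀ j p, χ j p ≠ 0) (K M T S : ℕ) (hK : 1 ≤ K) (hM : 1 ≤ M)
    {J : Type} [Fintype J] (p : J → ℂ) (k : J → Fin w → ℕ) (m : J → Fin b → ℕ)
    (hk : ∀ j, ∀ i ∉ A, k j i = 0) (hinj : ∀ j j', k j = k j' → m j = m j' → j = j') (hp : p ≠ 0)
    (hkK : ∀ j i, k j i ≤ K) (hmM : ∀ j q, m j q ≤ M)
    (hvan : ∀ (t : Fin w → ℕ) (s : Fin l → ℕ), (∀ i, t i ≤ (A.card + b) * T) →
      (∀ q, s q ≤ (A.card + b) * S) → ∑ j, p j * entG γ α χ (k j) (m j) t s = 0) :
    ∃ (Af' : Submodule ℂ (Fin w → ℂ)) (Rm' : AddSubgroup (Fin b → ℤ))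
      (W0 : Submodule ℂ (Fin w → ℂ)) (G0 : AddSubgroup (Fin l → ℤ)),
      (∀ a ∈ Af', ∀ i ∉ A, a i = 0) ∧ ¬ (Af' = ⊥ ∧ Rm' = ⊥) ∧
      (∀ c, c ∈ W0 ↔ (∀ a ∈ Af', ∑ i, a i * c i = 0) ∧
        ∀ m ∈ Rm', ∑ j, (m j : ℂ) * ∑ i, c i * γ i j = 0) ∧
      (∀ s, s ∈ G0 ↔ (∀ a ∈ Af', ∑ i, a i * ∑ p, α i p * (s p : ℂ) = 0) ∧
        ∀ m ∈ Rm', ∏ j, (∏ p, χ j p ^ s p) ^ m j = 1) ∧
      ∃ l' q' : ℕ, l' ≤ w ∧ w ≤ l' + finrank ℂ W0 ∧ l ≤ q' + finrank ℤ G0 ∧
        (S + 1) ^ q' * (T / l' + 1) ^ l' ≤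
          2 ^ ((A.card + b + 1) * (A.card + b)) *
            (K ^ finrank ℂ Af' * M ^ finrank ℤ Rm') := by
  classical
  have hcard : Fintype.card (Ix A b) = A.card + b := by
    rw [Fintype.card_sum, Fintype.card_coe, Fintype.card_fin]
  set L : Ix A b → ℕ := Sum.elim (fun _ => K) (fun _ => M) with hL
  -- the set of points
  let bx : Finset (Fin l → ℤ) := Fintype.piFinset (fun _ => Finset.Icc (0 : ℤ) S)
  have hbx : ∀ s ∈ bx, ∀ q, 0 ≤ s q ∧ s q ≤ S := by
    intro s hs q
    exact Finset.mem_Icc.mp (Fintype.mem_piFinset.mp hs q)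
  let Γ₁ : Finset (Ix A b → ℂ) := bx.image (pt A α χ)
  obtain ⟨P, hP, hP0, hmain⟩ := hZ (Ix A b) (ad A b) w (Wd A γ) Γ₁ T (aux A γ p k m) L
    (by rintro (i | j) <;> simp [hL, hK, hM])
    (by
      intro g hg
      obtain ⟨s, -, rfl⟩ := Finset.mem_image.mp hg
      exact isG_pt A α χ hχ s)
    (aux_ne_zero A γ p k m hk hinj hp) (aux_mem_box A γ p k m hk K M hkK hmM)
    (by
      intro ks gs h1 h2 h3
      rw [hcard] at h1 h2
      obtain ⟨ss, hss, rfl⟩ : ∃ ss : List (Fin l → ℤ), (∀ s ∈ ss, s ∈ bx) ∧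
          gs = ss.map (pt A α χ) := by
        clear h2
        induction gs with
        | nil => exact ⟨[], by simp, rfl⟩
        | cons g gs ih =>
          obtain ⟨ss, h4, h5⟩ := ih (fun g hg => h3 g (List.mem_cons_of_mem _ hg))
          obtain ⟨s, hs, hsg⟩ := Finset.mem_image.mp (h3 g List.mem_cons_self)
          refine ⟨s :: ss, ?_, by rw [List.map_cons, hsg, h5]⟩
          intro s' hs'
          rcases List.mem_cons.mp hs' with rfl | h
          · exact hs
          · exact h4 s' h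
      rw [List.length_map] at h2
      have hsum : ∀ ss : List (Fin l → ℤ), (∀ s ∈ ss, s ∈ bx) → ∀ q, 0 ≤ ss.sum q ∧
          ss.sum q ≤ ss.length * S := by
        intro ss
        induction ss with
        | nil => intro _ q; simp
        | cons s ss ih =>
          intro h q
          have h5 := ih (fun s' hs' => h s' (List.mem_cons_of_mem _ hs')) q
          have h6 := hbx s (h s List.mem_cons_self) q
          rw [List.sum_cons, List.length_cons, Pi.add_apply]
          push_cast
          constructor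
          · linarith [h5.1, h6.1]
          · nlinarith [h5.2, h6.2]
      have hs := hsum ss hss
      have hrep : ss.sum = fun q => (((ss.sum q).toNat : ℕ) : ℤ) := by
        funext q
        rw [Int.toNat_of_nonneg (hs q).1]
      rw [prodG_map_pt A α χ hχ, hrep, eval_derIter_aux A α χ γ p k m hk]
      apply hvan
      · intro i
        exact (List.count_le_length).trans h1
      · intro q
        have h4 := (hs q).2
        have h5 : (ss.length : ℤ) * S ≤ ((A.card + b : ℕ) : ℤ) * S := by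
          have : (ss.length : ℤ) ≤ ((A.card + b : ℕ) : ℤ) := by exact_mod_cast h2
          nlinarith
        have h6 : (ss.sum q).toNat ≤ (A.card + b) * S := by
          rw [Int.toNat_le]
          push_cast
          push_cast at h5
          linarith
        exact h6)
  rw [hcard] at hmain
  -- coordinates
  obtain ⟨EW, hEW1, hEW2⟩ := coord (WP A γ P)
  obtain ⟨EG, hEG1, hEG2⟩ := finrank_toInt (GPs A α χ P hχ)
  obtain ⟨EA, hEA1, hEA2⟩ := coord (Af A γ α χ P hχ)
  obtain ⟨ER, hER1, hER2⟩ := finrank_toInt (Rm A γ α χ P hχ)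
  let E : Finset (Ix A b) := univ.filter (Sum.elim (fun i => (i : Fin w) ∈ EA) (fun j => j ∈ ER))
  have hE : Indep P (E : Set (Ix A b)) := by
    refine Pool.Agent.H340R2.Stab.indep_of_stab_gen (ad A b) P hP (E : Set (Ix A b))
      {v | ∃ c ∈ WP A γ P, v = fun j => ∑ k, c k * Wd A γ k j}
      {g | ∃ s ∈ GPs A α χ P hχ, g = pt A α χ s} ?_ ?_ ?_ ?_ ?_
    · rintro _ ⟨c, hc, rfl⟩ f _ hf
      exact hc f hf
    · rintro _ ⟨s, -, rfl⟩
      exact isG_pt A α χ hχ s
    · rintro _ ⟨s, hs, rfl⟩ f _ hf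
      have hs' : trI (ad A b) (pt A α χ s) P = P := hs
      rw [← mem_trI, hs']; exact hf
    · intro lf h0 h1 h2
      let a : Fin w → ℂ := fun i => if h : i ∈ A then lf (Sum.inl ⟨i, h⟩) else 0
      have hsum : ∀ v : Fin w → ℂ, ∑ i, a i * v i = ∑ i : {i // i ∈ A}, lf (Sum.inl i) * v i := by
        intro v
        rw [← Finset.sum_subset (Finset.subset_univ A)]
        · rw [← Finset.sum_coe_sort A]
          apply Finset.sum_congr rfl
          intro i _
          simp [a]
        · intro i _ hi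
          simp [a, hi]
      have hlr : ∀ j : Fin b, lf (Sum.inr j) = 0 := fun j => h0 _ (Or.inr rfl)
      have ha : a ∈ Af A γ α χ P hχ := by
        refine ⟨fun i hi => by simp [a, hi], fun c hc => ?_, fun s hs => ?_⟩
        · have h3 := h1 _ ⟨c, hc, rfl⟩
          rw [Fintype.sum_sum_type] at h3
          simp only [hlr, zero_mul, Finset.sum_const_zero, add_zero] at h3
          rw [hsum, ← h3]
          apply Finset.sum_congr rfl
          intro i _
          congr 1
          simp [Wd]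
        · have h3 := h2 _ ⟨s, hs, rfl⟩
          rw [Fintype.sum_sum_type] at h3
          simp only [hlr, zero_mul, Finset.sum_const_zero, add_zero] at h3
          rw [hsum, ← h3]
          rfl
      have ha0 := hEA2 a ha (by
        intro i hi
        by_cases h : i ∈ A
        · simp only [a, dif_pos h]
          apply h0
          left
          simp [E, hi]
        · simp [a, h])
      rintro (i | j)
      · have := congrFun ha0 i.1
        simpa [a] using this
      · exact hlr j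
    · intro bb h0 h1 h2
      let mm : Fin b → ℤ := fun j => bb (Sum.inr j)
      have hbl : ∀ i : {i // i ∈ A}, bb (Sum.inl i) = 0 := fun i => h0 _ (Or.inr rfl)
      have hmm : mm ∈ Rm A γ α χ P hχ := by
        refine ⟨fun c hc => ?_, fun s hs => ?_⟩
        · have h3 := h1 _ ⟨c, hc, rfl⟩
          rw [Fintype.sum_sum_type] at h3
          simp only [hbl, Int.cast_zero, mul_zero, Finset.sum_const_zero, zero_add] at h3
          rw [← h3]
          apply Finset.sum_congr rfl
          intro j _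
          rw [mul_comm]
          rfl
        · have h3 := h2 _ ⟨s, hs, rfl⟩
          rw [Fintype.prod_sum_type] at h3
          simp only [ad, Sum.elim_inl, if_true, Finset.prod_const_one, one_mul, Sum.elim_inr,
            Bool.false_eq_true, if_false] at h3
          rw [← h3]
          rfl
      have h3 := hER2 mm hmm (by
        intro j hj
        apply h0
        left
        simp [E, hj])
      rintro (i | j)
      · exact hbl i
      · exact congrFun h3 j
  -- the set of translations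
  let Δs : Finset (Fin l → ℤ) := Fintype.piFinset
    (fun q => if q ∈ EG then Finset.Icc (0 : ℤ) S else {0})
  have hΔs : ∀ s ∈ Δs, s ∈ bx := by
    intro s hs
    rw [Fintype.mem_piFinset] at hs ⊢
    intro q
    have := hs q
    split_ifs at this with h
    · exact this
    · rw [Finset.mem_singleton] at this
      rw [this]
      simp
  have hΔsep : ∀ s ∈ Δs, ∀ s' ∈ Δs,
      trI (ad A b) (pt A α χ s) P = trI (ad A b) (pt A α χ s') P → s = s' := by
    intro s hs s' hs' h
    have h1 : s - s' ∈ GPs A α χ P hχ := by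
      change trI (ad A b) (pt A α χ (s - s')) P = P
      have h2 : pt A α χ (s - s') = gmul (ad A b) (pt A α χ (-s')) (pt A α χ s) := by
        rw [pt_add A α χ hχ]; congr 1; ring
      rw [h2, ← trI_trI, h, trI_trI, pt_add A α χ hχ, neg_add_cancel, pt_zero, trI_gone]
    have h2 := hEG2 _ h1 (by
      intro q hq
      rw [Fintype.mem_piFinset] at hs hs'
      have h3 := hs q
      have h4 := hs' q
      rw [if_neg hq, Finset.mem_singleton] at h3 h4
      rw [Pi.sub_apply, h3, h4, sub_zero])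
    exact sub_eq_zero.mp h2
  have hΔcard : (Δs.image (pt A α χ)).card = (S + 1) ^ EG.card := by
    rw [Finset.card_image_of_injOn]
    · rw [Fintype.card_piFinset]
      have : ∀ q, (if q ∈ EG then Finset.Icc (0 : ℤ) S else {0}).card =
          if q ∈ EG then S + 1 else 1 := by
        intro q
        split_ifs
        · rw [Int.card_Icc]; omega
        · simp
      simp only [this]
      rw [Finset.prod_ite_mem, Finset.univ_inter, Finset.prod_const]
    · intro s hs s' hs' h
      exact hΔsep s hs s' hs' (by rw [h])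
  -- the derivations
  let e := EW.equivFin.symm
  have hineq := hmain E hE (Δs.image (pt A α χ)) (Finset.image_subset_image hΔs) (by
      intro g hg g' hg' h
      obtain ⟨s, hs, rfl⟩ := Finset.mem_image.mp hg
      obtain ⟨s', hs', rfl⟩ := Finset.mem_image.mp hg'
      rw [hΔsep s hs s' hs' h]) EW.card (fun k => Wd A γ (e k).1)
    (fun k => Submodule.subset_span ⟨_, rfl⟩) (by
      intro c hc
      have h1 : (fun i => if h : i ∈ EW then c (e.symm ⟨i, h⟩) else 0) ∈ WP A γ P := by
        have hfun : (fun j => ∑ k, (if h : k ∈ EW then c (e.symm ⟨k, h⟩) else 0) * Wd A γ k j) =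
            (fun j => ∑ k, c k * Wd A γ (e k).1 j) := by
          funext j
          have h3 : ∑ k, (if h : k ∈ EW then c (e.symm ⟨k, h⟩) else 0) * Wd A γ k j =
              ∑ k ∈ EW, (if h : k ∈ EW then c (e.symm ⟨k, h⟩) else 0) * Wd A γ k j := by
            symm
            apply Finset.sum_subset (Finset.subset_univ _)
            intro k _ hk
            rw [dif_neg hk, zero_mul]
          rw [h3, ← Finset.sum_coe_sort EW, ← Equiv.sum_comp e]
          apply Finset.sum_congr rfl
          intro k _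
          rw [dif_pos (e k).2]
          simp
        intro f hf
        have h2 := hc f hf
        rw [← hfun] at h2
        exact h2
      have h2 := hEW2 _ h1 (by
        intro i hi
        rw [dif_neg hi])
      funext k
      have h3 := congrFun h2 (e k).1
      simpa using h3)
  -- conclusion
  let W0 : Submodule ℂ (Fin w → ℂ) :=
    { carrier := {c | (∀ a ∈ Af A γ α χ P hχ, ∑ i, a i * c i = 0) ∧
        ∀ m ∈ Rm A γ α χ P hχ, ∑ j, (m j : ℂ) * ∑ i, c i * γ i j = 0}
      zero_mem' := by simp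
      add_mem' := by
        rintro c c' ⟨h1, h2⟩ ⟨h1', h2'⟩
        refine ⟨fun a ha => ?_, fun m hm => ?_⟩
        · simp only [Pi.add_apply, mul_add, Finset.sum_add_distrib, h1 a ha, h1' a ha, add_zero]
        · simp only [Pi.add_apply, add_mul, Finset.sum_add_distrib, mul_add, h2 m hm, h2' m hm,
            add_zero]
      smul_mem' := by
        rintro r c ⟨h1, h2⟩
        refine ⟨fun a ha => ?_, fun m hm => ?_⟩
        · have := h1 a ha
          simp only [Pi.smul_apply, smul_eq_mul]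
          have e1 : ∑ i, a i * (r * c i) = r * ∑ i, a i * c i := by
            rw [Finset.mul_sum]; apply Finset.sum_congr rfl; intro i _; ring
          rw [e1, this, mul_zero]
        · have := h2 m hm
          simp only [Pi.smul_apply, smul_eq_mul]
          have e1 : ∑ j, (m j : ℂ) * ∑ i, r * c i * γ i j =
              r * ∑ j, (m j : ℂ) * ∑ i, c i * γ i j := by
            rw [Finset.mul_sum]; apply Finset.sum_congr rfl; intro j _
            rw [Finset.mul_sum, Finset.mul_sum, Finset.mul_sum]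
            apply Finset.sum_congr rfl; intro i _; ring
          rw [e1, this, mul_zero] }
  let G0 : AddSubgroup (Fin l → ℤ) :=
    { carrier := {s | (∀ a ∈ Af A γ α χ P hχ, ∑ i, a i * ∑ p, α i p * (s p : ℂ) = 0) ∧
        ∀ m ∈ Rm A γ α χ P hχ, ∏ j, (∏ p, χ j p ^ s p) ^ m j = 1}
      zero_mem' := by simp
      add_mem' := by
        rintro s s' ⟨h1, h2⟩ ⟨h1', h2'⟩
        refine ⟨fun a ha => ?_, fun m hm => ?_⟩
        · simp only [Pi.add_apply, Int.cast_add, mul_add, Finset.sum_add_distrib, h1 a ha, h1' a ha,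
            add_zero]
        · have e1 : ∀ j, (∏ p, χ j p ^ (s + s') p) = (∏ p, χ j p ^ s p) * ∏ p, χ j p ^ s' p := by
            intro j
            rw [← Finset.prod_mul_distrib]
            apply Finset.prod_congr rfl
            intro p _
            rw [Pi.add_apply, zpow_add₀ (hχ j p)]
          simp only [e1, mul_zpow, Finset.prod_mul_distrib, h2 m hm, h2' m hm, mul_one]
      neg_mem' := by
        rintro s ⟨h1, h2⟩
        refine ⟨fun a ha => ?_, fun m hm => ?_⟩
        · simp only [Pi.neg_apply, Int.cast_neg, mul_neg, Finset.sum_neg_distrib, h1 a ha, neg_zero]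
        · simp only [Pi.neg_apply, zpow_neg, Finset.prod_inv_distrib, inv_zpow, h2 m hm, inv_one] }
  refine ⟨Af A γ α χ P hχ, Rm A γ α χ P hχ, W0, G0, fun a ha => ha.1, ?_, fun c => Iff.rfl,
    fun s => Iff.rfl, EW.card, EG.card, ?_, ?_, ?_, ?_⟩
  · rintro ⟨hA0, hR0⟩
    apply hP0
    have hEu : E = univ := by
      rw [hA0, finrank_bot] at hEA1
      rw [hR0] at hER1
      have hER1' : (univ \ ER).card = 0 := by
        rw [hER1]
        exact finrank_zero_of_subsingleton
      rw [Finset.card_eq_zero, Finset.sdiff_eq_empty_iff_subset] at hEA1 hER1'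
      ext i
      simp only [E, Finset.mem_filter, Finset.mem_univ, true_and, iff_true]
      rcases i with i | j
      · exact hEA1 (Finset.mem_univ _)
      · exact hER1' (Finset.mem_univ _)
    rw [hEu, Finset.coe_univ] at hE
    rw [eq_bot_iff]
    intro f hf
    rw [Ideal.mem_bot]
    exact hE f (by rw [supported_univ]; trivial) hf
  · exact (Finset.card_le_univ EW).trans (by simp)
  · have h1 : WP A γ P ≤ W0 := by
      intro c hc
      exact ⟨fun a ha => ha.2.1 c hc, fun m hm => hm.1 c hc⟩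
    have h2 := Submodule.finrank_mono h1
    have h3 : (univ \ EW).card + EW.card = w := by
      rw [Finset.card_sdiff_of_subset (Finset.subset_univ _), Finset.card_univ, Fintype.card_fin]
      have := Finset.card_le_univ EW
      rw [Fintype.card_fin] at this
      omega
    omega
  · have h1 : AddSubgroup.toIntSubmodule (GPs A α χ P hχ) ≤ AddSubgroup.toIntSubmodule G0 := by
      intro s hs
      exact ⟨fun a ha => ha.2.2 s hs, fun m hm => hm.2 s hs⟩
    have h2 : finrank ℤ (GPs A α χ P hχ) ≤ finrank ℤ G0 := Submodule.finrank_mono h1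
    have h3 : (univ \ EG).card + EG.card = l := by
      rw [Finset.card_sdiff_of_subset (Finset.subset_univ _), Finset.card_univ, Fintype.card_fin]
      have := Finset.card_le_univ EG
      rw [Fintype.card_fin] at this
      omega
    omega
  · rw [hΔcard] at hineq
    refine hineq.trans (Nat.mul_le_mul_left _ ?_)
    have h1 : ∏ j ∈ univ \ E, L j ≤ K ^ (univ \ EA).card * M ^ (univ \ ER).card := by
      have h2 : ∏ j ∈ univ \ E, L j = ∏ j : Ix A b, if j ∈ E then 1 else L j := by
        rw [← Finset.prod_sdiff (Finset.subset_univ E) (f := fun j => if j ∈ E then 1 else L j)]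
        rw [Finset.prod_congr rfl (g := L) (fun j hj => if_neg (Finset.mem_sdiff.mp hj).2),
          Finset.prod_congr (s₁ := E) (f := fun j => if j ∈ E then 1 else L j) (g := fun _ => 1) rfl
            (fun j hj => if_pos hj), Finset.prod_const_one, mul_one]
      rw [h2, Fintype.prod_sum_type]
      apply Nat.mul_le_mul
      · have h3 : ∏ i : {i // i ∈ A}, (if (Sum.inl i : Ix A b) ∈ E then 1 else L (Sum.inl i)) =
            ∏ i ∈ A, (if i ∈ EA then 1 else K) := by
          rw [← Finset.prod_coe_sort A]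
          apply Finset.prod_congr rfl
          intro i _
          simp [E, hL]
        rw [h3]
        calc ∏ i ∈ A, (if i ∈ EA then 1 else K) ≤ ∏ i : Fin w, (if i ∈ EA then 1 else K) := by
              apply Finset.prod_le_prod_of_subset_of_one_le' (Finset.subset_univ _)
              intro i _ _
              split_ifs <;> omega
          _ = K ^ (univ \ EA).card := by
              rw [← Finset.prod_const, ← Finset.prod_sdiff (Finset.subset_univ EA)]
              rw [Finset.prod_congr rfl (g := fun _ => K)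
                (fun j hj => if_neg (Finset.mem_sdiff.mp hj).2),
                Finset.prod_congr (s₁ := EA) (g := fun _ => 1) rfl
                (fun j hj => if_pos hj), Finset.prod_const_one, mul_one]
      · have h3 : ∏ i : Fin b, (if (Sum.inr i : Ix A b) ∈ E then 1 else L (Sum.inr i)) =
            M ^ (univ \ ER).card := by
          rw [← Finset.prod_const, ← Finset.prod_sdiff (Finset.subset_univ ER)]
          rw [Finset.prod_congr rfl (g := fun _ => M)
            (fun j hj => by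
              have := (Finset.mem_sdiff.mp hj).2
              simp [E, hL, this]),
            Finset.prod_congr (s₁ := ER) (g := fun _ => 1) rfl
            (fun j hj => by simp [E, hj]), Finset.prod_const_one, mul_one]
        rw [h3]
    rw [hEA1, hER1] at h1
    exact h1

end Obstruction


/-- arithmetic of the final inequality -/
theorem final_arith {C n κ μ σ l' q' d0 d1 : ℕ} (hC : 1 ≤ C) (hn : C < n) (hl' : 1 ≤ l' ∨ l' = 0)
    (h : ((C + 1) * n ^ σ) ^ q' * ((C + 1) * n ^ κ) ^ l' ≤ C * ((n ^ κ) ^ d0 * (n ^ μ) ^ d1)) :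
    l' * κ + q' * σ < d0 * κ + d1 * μ ∨
      (l' * κ + q' * σ = d0 * κ + d1 * μ ∧ l' = 0 ∧ q' = 0) := by
  have hn1 : 1 ≤ n := by omega
  have e1 : ((C + 1) * n ^ σ) ^ q' * ((C + 1) * n ^ κ) ^ l' =
      (C + 1) ^ (q' + l') * n ^ (l' * κ + q' * σ) := by
    rw [mul_pow, mul_pow, ← pow_mul, ← pow_mul, pow_add, pow_add, mul_comm κ l', mul_comm σ q']
    ring
  have e2 : (n ^ κ) ^ d0 * (n ^ μ) ^ d1 = n ^ (d0 * κ + d1 * μ) := by
    rw [← pow_mul, ← pow_mul, pow_add, mul_comm κ d0, mul_comm μ d1]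
  rw [e1, e2] at h
  rcases lt_trichotomy (l' * κ + q' * σ) (d0 * κ + d1 * μ) with h1 | h1 | h1
  · exact Or.inl h1
  · right
    refine ⟨h1, ?_⟩
    rw [h1] at h
    have hpos : 0 < n ^ (d0 * κ + d1 * μ) := by positivity
    have h2 := Nat.le_of_mul_le_mul_right h hpos
    by_contra hcon
    have h3 : 1 ≤ q' + l' := by omega
    have h4 : (C + 1) ^ 1 ≤ (C + 1) ^ (q' + l') := Nat.pow_le_pow_right (by omega) h3
    rw [pow_one] at h4
    omega
  · exfalso
    have h2 : n ^ (d0 * κ + d1 * μ + 1) ≤ n ^ (l' * κ + q' * σ) := Nat.pow_le_pow_right hn1 h1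
    have h3 : 1 ≤ (C + 1) ^ (q' + l') := Nat.one_le_pow _ _ (by omega)
    have hpos : 0 < n ^ (d0 * κ + d1 * μ) := by positivity
    have h4 : n * n ^ (d0 * κ + d1 * μ) ≤ C * n ^ (d0 * κ + d1 * μ) := by
      calc n * n ^ (d0 * κ + d1 * μ) = n ^ (d0 * κ + d1 * μ + 1) := by rw [pow_succ]; ring
        _ ≤ n ^ (l' * κ + q' * σ) := h2
        _ = 1 * n ^ (l' * κ + q' * σ) := (one_mul _).symm
        _ ≤ (C + 1) ^ (q' + l') * n ^ (l' * κ + q' * σ) := Nat.mul_le_mul_right _ h3
        _ ≤ _ := h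
    have h5 := Nat.le_of_mul_le_mul_right h4 hpos
    omega

/-- **Obstruction theorem** (number field form). -/
theorem obstruction_field (hZ : ZEG) {F : Type*} [Field F] [NumberField F] (φ : F →ₐ[ℚ] ℂ)
    {w b l r : ℕ}
    (A : Finset (Fin w)) (γ : Fin w → Fin b → F) (α : Fin w → Fin l → F) (χ : Fin b → Fin l → F)
    (x : Fin r → Fin b → ℂ) (y : Fin r → Fin l → ℂ) (ω : Fin w → Fin l → ℂ)
    (hα : ∀ i ∈ A, ∀ p, φ (α i p) = ω i p)
    (hχ : ∀ j p, φ (χ j p) = Complex.exp (∑ ρ, x ρ j * y ρ p + ∑ i, φ (γ i j) * ω i p))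
    (κ μ σ : ℕ) (hκ : μ + σ = κ) (hcount : (κ + 1) * (r + w) + 1 ≤ A.card * κ + b * μ) :
    ∃ (Af' : Submodule ℂ (Fin w → ℂ)) (Rm' : AddSubgroup (Fin b → ℤ))
      (W0 : Submodule ℂ (Fin w → ℂ)) (G0 : AddSubgroup (Fin l → ℤ)),
      (∀ a ∈ Af', ∀ i ∉ A, a i = 0) ∧ ¬ (Af' = ⊥ ∧ Rm' = ⊥) ∧
      (∀ c, c ∈ W0 ↔ (∀ a ∈ Af', ∑ i, a i * c i = 0) ∧
        ∀ m ∈ Rm', ∑ j, (m j : ℂ) * ∑ i, c i * φ (γ i j) = 0) ∧
      (∀ s, s ∈ G0 ↔ (∀ a ∈ Af', ∑ i, a i * ∑ p, φ (α i p) * (s p : ℂ) = 0) ∧
        ∀ m ∈ Rm', ∏ j, (∏ p, φ (χ j p) ^ s p) ^ m j = 1) ∧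
      ((w - finrank ℂ W0) * κ + (l - finrank ℤ G0) * σ < finrank ℂ Af' * κ + finrank ℤ Rm' * μ ∨
        ((w - finrank ℂ W0) * κ + (l - finrank ℤ G0) * σ =
          finrank ℂ Af' * κ + finrank ℤ Rm' * μ ∧ w - finrank ℂ W0 = 0 ∧
            l - finrank ℤ G0 = 0)) := by
  classical
  set N := A.card + b with hN
  set C := 2 ^ ((N + 1) * N) with hC
  have hC1 : 1 ≤ C := Nat.one_le_two_pow
  obtain ⟨n0, hn0⟩ := exists_aux φ A γ α χ x y ω hα hχ κ μ σ (N * (w + 1) * (C + 1)) hκ hcount
  obtain ⟨n, hn⟩ : ∃ n, n = max n0 (C + 1) := ⟨_, rfl⟩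
  obtain ⟨p, hp, hpv⟩ := hn0 n (by omega)
  have hχ0 : ∀ j p, φ (χ j p) ≠ 0 := fun j p => by rw [hχ]; exact Complex.exp_ne_zero _
  have hn1 : 1 ≤ n := by omega
  obtain ⟨Af', Rm', W0, G0, h1, h2, h3, h4, l', q', h5, h6, h7, h8⟩ :=
    key_ineq A (fun i j => φ (γ i j)) (fun i q => φ (α i q)) (fun j q => φ (χ j q)) hZ hχ0
      (n ^ κ) (n ^ μ) ((w + 1) * (C + 1) * n ^ κ) ((w + 1) * (C + 1) * n ^ σ)
      (Nat.one_le_pow _ _ hn1) (Nat.one_le_pow _ _ hn1) p
      (fun j i => (j.1 i : ℕ)) (fun j i => (j.2 i : ℕ))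
      (by
        intro j i hi
        have : (j.1 i : ℕ) < (if i ∈ A then n ^ κ else 0) + 1 := (j.1 i).2
        rw [if_neg hi] at this
        omega)
      (by
        intro j j' h h'
        apply Prod.ext
        · funext i; exact Fin.ext (congrFun h i)
        · funext i; exact Fin.ext (congrFun h' i))
      hp
      (by
        intro j i
        have : (j.1 i : ℕ) < (if i ∈ A then n ^ κ else 0) + 1 := (j.1 i).2
        split_ifs at this <;> omega)
      (by
        intro j i
        have := (j.2 i).2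
        omega)
      (by
        intro t s ht hs
        apply hpv t s
        · intro i
          refine (ht i).trans (le_of_eq ?_)
          rw [← hN]; ring
        · intro q
          refine (hs q).trans (le_of_eq ?_)
          rw [← hN]; ring)
  refine ⟨Af', Rm', W0, G0, h1, h2, h3, h4, ?_⟩
  have h9 : ((C + 1) * n ^ σ) ^ q' * ((C + 1) * n ^ κ) ^ l' ≤
      C * ((n ^ κ) ^ finrank ℂ Af' * (n ^ μ) ^ finrank ℤ Rm') := by
    refine le_trans ?_ h8
    apply Nat.mul_le_mul
    · apply Nat.pow_le_pow_left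
      calc (C + 1) * n ^ σ = 1 * ((C + 1) * n ^ σ) := (one_mul _).symm
        _ ≤ (w + 1) * ((C + 1) * n ^ σ) := Nat.mul_le_mul_right _ (by omega)
        _ = (w + 1) * (C + 1) * n ^ σ := by ring
        _ ≤ _ := Nat.le_succ _
    · rcases Nat.eq_zero_or_pos l' with h0 | h0
      · rw [h0, pow_zero, pow_zero]
      · apply Nat.pow_le_pow_left
        have h10 : (C + 1) * n ^ κ ≤ (w + 1) * (C + 1) * n ^ κ / l' := by
          rw [Nat.le_div_iff_mul_le h0]
          calc (C + 1) * n ^ κ * l' ≤ (C + 1) * n ^ κ * (w + 1) := Nat.mul_le_mul_left _ (by omega)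
            _ = _ := by ring
        omega
  have h10 := final_arith (κ := κ) (μ := μ) (σ := σ) hC1 (by omega) (by omega) h9
  have h11 : w - finrank ℂ W0 ≤ l' := by omega
  have h12 : l - finrank ℤ G0 ≤ q' := by omega
  have h13 : (w - finrank ℂ W0) * κ ≤ l' * κ := Nat.mul_le_mul_right _ h11
  have h14 : (l - finrank ℤ G0) * σ ≤ q' * σ := Nat.mul_le_mul_right _ h12
  rcases h10 with h10 | ⟨h10, h15, h16⟩
  · left; omega
  · rcases Nat.lt_or_ge ((w - finrank ℂ W0) * κ + (l - finrank ℤ G0) * σ)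
      (finrank ℂ Af' * κ + finrank ℤ Rm' * μ) with h17 | h17
    · exact Or.inl h17
    · right
      refine ⟨by omega, by omega, by omega⟩

/-- **Obstruction theorem** (parametric form of the linear subgroup theorem): `w` algebraic
directions (those in `A` carry an additive coordinate), `b` multiplicative coordinates, `l` points,
`r` further analytic directions; `u j p` is the `p`-th point's `j`-th logarithm. -/
theorem obstruction_of (hZ : ZEG) {w b l r : ℕ}
    (A : Finset (Fin w)) (γ : Fin w → Fin b → ℂ) (ω : Fin w → Fin l → ℂ) (u : Fin b → Fin l → ℂ)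
    (x : Fin r → Fin b → ℂ) (y : Fin r → Fin l → ℂ)
    (hγ : ∀ i j, IsAlgebraic ℚ (γ i j)) (hω : ∀ i ∈ A, ∀ p, IsAlgebraic ℚ (ω i p))
    (hu : ∀ j p, IsAlgebraic ℚ (Complex.exp (u j p)))
    (huv : ∀ j p, u j p = ∑ ρ, x ρ j * y ρ p + ∑ i, γ i j * ω i p)
    (κ μ σ : ℕ) (hκ : μ + σ = κ) (hcount : (κ + 1) * (r + w) + 1 ≤ A.card * κ + b * μ) :
    ∃ (Af' : Submodule ℂ (Fin w → ℂ)) (Rm' : AddSubgroup (Fin b → ℤ))
      (W0 : Submodule ℂ (Fin w → ℂ)) (G0 : AddSubgroup (Fin l → ℤ)),
      (∀ a ∈ Af', ∀ i ∉ A, a i = 0) ∧ ¬ (Af' = ⊥ ∧ Rm' = ⊥) ∧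
      (∀ c, c ∈ W0 ↔ (∀ a ∈ Af', ∑ i, a i * c i = 0) ∧
        ∀ m ∈ Rm', ∑ j, (m j : ℂ) * ∑ i, c i * γ i j = 0) ∧
      (∀ s, s ∈ G0 ↔ (∀ a ∈ Af', ∑ i, a i * ∑ p, ω i p * (s p : ℂ) = 0) ∧
        ∀ m ∈ Rm', ∃ n : ℤ, ∑ j, ∑ p, (m j : ℂ) * (s p : ℂ) * u j p =
          n * (2 * Real.pi * Complex.I)) ∧
      ((w - finrank ℂ W0) * κ + (l - finrank ℤ G0) * σ < finrank ℂ Af' * κ + finrank ℤ Rm' * μ ∨
        ((w - finrank ℂ W0) * κ + (l - finrank ℤ G0) * σ =
          finrank ℂ Af' * κ + finrank ℤ Rm' * μ ∧ w - finrank ℂ W0 = 0 ∧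
            l - finrank ℤ G0 = 0)) := by
  classical
  obtain ⟨F, _, _, φ, hφ⟩ := exists_field
    ((univ.image (fun ij : Fin w × Fin b => γ ij.1 ij.2)) ∪
      ((univ.image (fun ij : {i // i ∈ A} × Fin l => ω ij.1 ij.2)) ∪
        (univ.image (fun ij : Fin b × Fin l => Complex.exp (u ij.1 ij.2))))) (by
      intro z hz
      simp only [Finset.mem_union, Finset.mem_image, Finset.mem_univ, true_and] at hz
      rcases hz with ⟨ij, rfl⟩ | ⟨ij, rfl⟩ | ⟨ij, rfl⟩
      · exact hγ _ _
      · exact hω _ ij.1.2 _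
      · exact hu _ _)
  have h1 : ∀ i j, ∃ a, φ a = γ i j := fun i j => hφ _ (by
    apply Finset.mem_union_left
    exact Finset.mem_image.mpr ⟨(i, j), Finset.mem_univ _, rfl⟩)
  have h2 : ∀ i p, ∃ a, i ∈ A → φ a = ω i p := by
    intro i p
    by_cases hi : i ∈ A
    · obtain ⟨a, ha⟩ := hφ (ω i p) (by
        apply Finset.mem_union_right
        apply Finset.mem_union_left
        exact Finset.mem_image.mpr ⟨(⟨i, hi⟩, p), Finset.mem_univ _, rfl⟩)
      exact ⟨a, fun _ => ha⟩
    · exact ⟨0, fun h => absurd h hi⟩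
  have h3 : ∀ j p, ∃ a, φ a = Complex.exp (u j p) := fun j p => hφ _ (by
    apply Finset.mem_union_right
    apply Finset.mem_union_right
    exact Finset.mem_image.mpr ⟨(j, p), Finset.mem_univ _, rfl⟩)
  choose g hg using h1
  choose al hal using h2
  choose ch hch using h3
  obtain ⟨Af', Rm', W0, G0, k1, k2, k3, k4, k5⟩ := obstruction_field hZ φ A g al ch x y ω
    (fun i hi p => hal i p hi) (by
      intro j p
      rw [hch, huv]
      simp only [hg]) κ μ σ hκ hcount
  refine ⟨Af', Rm', W0, G0, k1, k2, ?_, ?_, k5⟩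
  · intro c
    rw [k3 c]
    simp only [hg]
  · intro s
    rw [k4 s]
    apply and_congr
    · apply forall_congr'
      intro a
      apply imp_congr_right
      intro ha
      have : ∀ i, a i * ∑ p, φ (al i p) * (s p : ℂ) = a i * ∑ p, ω i p * (s p : ℂ) := by
        intro i
        by_cases hi : i ∈ A
        · simp only [hal i _ hi]
        · rw [k1 a ha i hi, zero_mul, zero_mul]
      simp only [this]
    · apply forall_congr'
      intro m
      apply imp_congr_right
      intro _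
      have e1 : ∏ j, (∏ p, φ (ch j p) ^ s p) ^ m j =
          Complex.exp (∑ j, ∑ p, (m j : ℂ) * (s p : ℂ) * u j p) := by
        rw [Complex.exp_sum]
        apply Finset.prod_congr rfl
        intro j _
        rw [← Finset.prod_zpow, Complex.exp_sum]
        apply Finset.prod_congr rfl
        intro p _
        rw [hch, ← zpow_mul, ← Complex.exp_int_mul]
        congr 1
        push_cast; ring
      rw [e1, Complex.exp_eq_one_iff]


end Pool.Agent.H335R2.Obs
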