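import Mathlib
import Pool.Agent.H335R2.Obs.Main
import Pool.Agent.H301R2.ZG.Grp

/-! The unconditional obstruction theorem (TEAM-TR). -/

open MvPolynomial Finset Module

namespace Pool.Agent.H335R2.Obs

open Pool.Agent.H364R2 Pool.Agent.H301R2.TR Pool.Agent.H335R2

theorem zeg : ZEG := by
  intro σ _ _ add l W Γ₁ T F L hL hΓ hF0 hF hvan
  obtain ⟨P, h1, h2, -, -, -, h3⟩ := Pool.Agent.H301R2.ZG.zero_estimate_grp (add := add) W Γ₁ T F L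
    hL hΓ hF0 hF hvan
  exact ⟨P, h1, h2, h3⟩

/-- **Obstruction theorem** (parametric form of the linear subgroup theorem): `w` algebraic
directions (those in `A` carry an additive coordinate), `b` multiplicative coordinates, `l` points,
`r` further analytic directions; `u j p` is the `p`-th point's `j`-th logarithm. -/
theorem obstruction {w b l r : ℕ}
    (A : Finset (Fin w)) (γ : Fin w → Fin b → ℂ) (ω : Fin w → Fin l → ℂ) (u : Fin b → Fin l → ℂ)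
    (x : Fin r → Fin b → ℂ) (y : Fin r → Fin l → ℂ)
    (hγ : ∀ i j, IsAlgebraic ℚ (γ i j)) (hω : ∀ i ∈ A, ∀ p, IsAlgebraic ℚ (ω i p))
    (hu : ∀ j p, IsAlgebraic ℚ (Complex.exp (u j p)))
    (huv : ∀ j p, u j p = ∑ ρ, x ρ j * y ρ p + ∑ i, γ i j * ω i p)
    (κ μ σ : ℕ) (hκ : μ + σ = κ) (hcount : (κ + 1) * (r + w) + 1 ≤ A.card * κ + b * μ) :
    ∃ (Af' : Submodule ℂ (Fin w → ℂ)) (Rm' : AddSubgroup (Fin b → ℤ))
      (W0 : Submodule ℂ (Fin w → ℂ)) (G0 : AddSubgroup (Fin l → ℤ)),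
      (∀ a ∈ Af', ∀ i ∉ A, a i = 0) ∧ ¬ (Af' = ⊥ ∧ Rm' = ⊥) ∧
      (∀ c, c ∈ W0 ↔ (∀ a ∈ Af', ∑ i, a i * c i = 0) ∧
        ∀ m ∈ Rm', ∑ j, (m j : ℂ) * ∑ i, c i * γ i j = 0) ∧
      (∀ s, s ∈ G0 ↔ (∀ a ∈ Af', ∑ i, a i * ∑ p, ω i p * (s p : ℂ) = 0) ∧
        ∀ m ∈ Rm', ∃ n : ℤ, ∑ j, ∑ p, (m j : ℂ) * (s p : ℂ) * u j p =
          n * (2 * Real.pi * Complex.I)) ∧
      ((w - finrank ℂ W0) * κ + (l - finrank ℤ G0) * σ < finrank ℂ Af' * κ + finrank ℤ Rm' * μ ∨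
        ((w - finrank ℂ W0) * κ + (l - finrank ℤ G0) * σ =
          finrank ℂ Af' * κ + finrank ℤ Rm' * μ ∧ w - finrank ℂ W0 = 0 ∧
            l - finrank ℤ G0 = 0)) :=
  obstruction_of zeg A γ ω u x y hγ hω hu huv κ μ σ hκ hcount

end Pool.Agent.H335R2.Obs
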