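import Mathlib
import Pool.Agent.H335R2.Obs.Coord

/-! Linear algebra for the obstruction theorem. -/

open Finset Module

namespace Pool.Agent.H335R2.Obs

theorem coord' {R : Type*} [CommRing R] [IsDomain R] [IsNoetherianRing R] {ι : Type*} [Fintype ι]
    [DecidableEq ι] (U : Submodule R (ι → R)) :
    ∃ E : Finset ι, (univ \ E).card = finrank R U ∧
      (∀ u ∈ U, (∀ i ∉ E, u i = 0) → u = 0) ∧
      ∀ j ∉ E, ∃ u ∈ U, u j ≠ 0 ∧ ∀ i ∉ E, i ≠ j → u i = 0 := by
  classical
  obtain ⟨E, h1, h2⟩ := coord U
  refine ⟨E, h1, h2, fun j hj => ?_⟩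
  by_contra hcon
  push Not at hcon
  -- then restriction to the complement of `insert j E` is injective
  have hinj' : ∀ u ∈ U, (∀ i ∉ insert j E, u i = 0) → u = 0 := by
    intro u hu h
    by_cases huj : u j = 0
    · apply h2 u hu
      intro i hi
      by_cases hij : i = j
      · rw [hij]; exact huj
      · exact h i (by simp [hi, hij])
    · obtain ⟨i, hi, hij, hui⟩ := hcon u hu huj
      exact absurd (h i (by simp [hi, hij])) hui
  let res : U →ₗ[R] ({i // i ∉ insert j E} → R) :=
    (LinearMap.funLeft R R (Subtype.val : {i // i ∉ insert j E} → ι)).comp U.subtype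
  have hinj : Function.Injective res := by
    rw [← LinearMap.ker_eq_bot, LinearMap.ker_eq_bot']
    rintro ⟨v, hv⟩ h
    apply Subtype.ext
    apply hinj' v hv
    intro i hi
    exact congrFun h ⟨i, hi⟩
  have h3 := LinearMap.finrank_le_finrank_of_injective hinj
  rw [finrank_fintype_fun_eq_card] at h3
  have h4 : Fintype.card {i // i ∉ insert j E} = (univ \ insert j E).card := by
    rw [Fintype.card_subtype]
    congr 1
    ext i; simp
  have h5 : (univ \ insert j E).card < (univ \ E).card := by
    apply Finset.card_lt_card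
    refine ⟨?_, fun h => ?_⟩
    · intro i hi
      simp only [mem_sdiff, mem_univ, mem_insert, not_or, true_and] at hi ⊢
      exact hi.2
    · have := h (show j ∈ univ \ E by simp [hj])
      simp at this
  omega

/-- `K`-span of a subgroup of `ℤ^n` -/
def kSpan (K : Type*) [Field K] {n : ℕ} (R : AddSubgroup (Fin n → ℤ)) : Submodule K (Fin n → K) :=
  Submodule.span K {v | ∃ ρ ∈ R, v = fun j => ((ρ j : ℤ) : K)}

theorem finrank_kSpan (K : Type*) [Field K] [CharZero K] {n : ℕ} (R : AddSubgroup (Fin n → ℤ)) :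
    finrank K (kSpan K R) = finrank ℤ R := by
  classical
  apply le_antisymm
  · let B := Module.finBasis ℤ (AddSubgroup.toIntSubmodule R)
    have hspan : kSpan K R ≤ Submodule.span K (Set.range
        (fun k : Fin (finrank ℤ (AddSubgroup.toIntSubmodule R)) =>
          (fun j => (((B k : Fin n → ℤ) j : ℤ) : K)))) := by
      unfold kSpan
      rw [Submodule.span_le]
      rintro _ ⟨ρ, hρ, rfl⟩
      have h1 := B.sum_repr ⟨ρ, hρ⟩
      have h2 : (fun j => ((ρ j : ℤ) : K)) =
          ∑ k, ((B.repr ⟨ρ, hρ⟩ k : ℤ) : K) • (fun j => (((B k : Fin n → ℤ) j : ℤ) : K)) := by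
        funext j
        have h3 := congrArg (fun v : AddSubgroup.toIntSubmodule R => (v : Fin n → ℤ) j) h1
        simp only [Submodule.coe_sum, Submodule.coe_smul, Finset.sum_apply, Pi.smul_apply,
          smul_eq_mul] at h3
        rw [Finset.sum_apply, ← h3]
        push_cast
        rfl
      rw [h2]
      exact Submodule.sum_mem _ (fun k _ => Submodule.smul_mem _ _
        (Submodule.subset_span ⟨k, rfl⟩))
    refine (Submodule.finrank_mono hspan).trans ((finrank_range_le_card _).trans ?_)
    rw [Fintype.card_fin]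
    exact le_rfl
  · obtain ⟨E, h1, -, h3⟩ := coord' (AddSubgroup.toIntSubmodule R)
    choose u hu hu1 hu2 using h3
    have hmem : ∀ j : {j // j ∉ E}, (fun i => ((u j.1 j.2 i : ℤ) : K)) ∈ kSpan K R := fun j =>
      Submodule.subset_span ⟨_, hu j.1 j.2, rfl⟩
    have hli : LinearIndependent K (fun j : {j // j ∉ E} => (⟨_, hmem j⟩ : kSpan K R)) := by
      rw [Fintype.linearIndependent_iff]
      intro c hc j
      have h4 := congrArg (fun v : kSpan K R => (v : Fin n → K) j.1) hc
      simp only [Submodule.coe_sum, Submodule.coe_smul, Finset.sum_apply,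
        Pi.smul_apply, smul_eq_mul, ZeroMemClass.coe_zero, Pi.zero_apply] at h4
      rw [Finset.sum_eq_single j] at h4
      · exact (mul_eq_zero.mp h4).resolve_right (by
          simpa using hu1 j.1 j.2)
      · intro j' _ hj'
        rw [hu2 j'.1 j'.2 j.1 j.2 (fun h => hj' (Subtype.ext h.symm)), Int.cast_zero, mul_zero]
      · simp
    have h5 := hli.fintype_card_le_finrank
    have h6 : Fintype.card {j // j ∉ E} = (univ \ E).card := by
      rw [Fintype.card_subtype]
      congr 1
      ext i; simp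
    have h7 : finrank ℤ R = finrank ℤ (AddSubgroup.toIntSubmodule R) := rfl
    omega

/-- a subgroup of non-maximal rank is killed by a rational linear form -/
theorem exists_rat_form {n : ℕ} (R : AddSubgroup (Fin n → ℤ)) (h : finrank ℤ R < n) :
    ∃ q : Fin n → ℚ, q ≠ 0 ∧ ∀ m ∈ R, ∑ i, q i * (m i : ℚ) = 0 := by
  classical
  have h1 : kSpan ℚ R < ⊤ := by
    rw [lt_top_iff_ne_top]
    intro h2
    have h3 := finrank_kSpan ℚ R
    rw [h2, finrank_top, finrank_fintype_fun_eq_card, Fintype.card_fin] at h3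
    omega
  obtain ⟨φ, hφ0, hφ⟩ := Submodule.exists_le_ker_of_lt_top _ h1
  refine ⟨fun i => φ (Pi.single i 1), ?_, ?_⟩
  · intro h2
    apply hφ0
    apply LinearMap.pi_ext'
    intro i
    apply LinearMap.ext_ring
    simpa using congrFun h2 i
  · intro m hm
    have h2 : φ (fun j => ((m j : ℤ) : ℚ)) = 0 := hφ (Submodule.subset_span ⟨m, hm, rfl⟩)
    rw [LinearMap.pi_apply_eq_sum_univ φ] at h2
    rw [← h2]
    apply Finset.sum_congr rfl
    intro i _
    have h5 : (fun j => if i = j then (1:ℚ) else 0) = Pi.single i 1 := by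
      funext j
      by_cases hij : i = j
      · subst hij; simp
      · rw [if_neg hij, Pi.single_eq_of_ne (Ne.symm hij)]
    rw [smul_eq_mul, mul_comm, h5]

/-- the same form kills the complex span -/
theorem form_cSpan {n : ℕ} {R : AddSubgroup (Fin n → ℤ)} {q : Fin n → ℚ}
    (hq : ∀ m ∈ R, ∑ i, q i * (m i : ℚ) = 0) {v : Fin n → ℂ} (hv : v ∈ kSpan ℂ R) :
    ∑ i, (q i : ℂ) * v i = 0 := by
  unfold kSpan at hv
  refine Submodule.span_induction (hx := hv) ?_ ?_ ?_ ?_
  · rintro _ ⟨ρ, hρ, rfl⟩
    have := congrArg (fun z : ℚ => (z : ℂ)) (hq ρ hρ)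
    push_cast at this
    exact this
  · simp
  · intro x y _ _ hx hy
    simp only [Pi.add_apply, mul_add, Finset.sum_add_distrib, hx, hy, add_zero]
  · intro c x _ hx
    simp only [Pi.smul_apply, smul_eq_mul]
    have e1 : ∑ i, (q i : ℂ) * (c * x i) = c * ∑ i, (q i : ℂ) * x i := by
      rw [Finset.mul_sum]; apply Finset.sum_congr rfl; intro i _; ring
    rw [e1, hx, mul_zero]

/-- dimension of the orthogonal complement (upper bound) -/
theorem finrank_orth_le {w : ℕ} (U W0 : Submodule ℂ (Fin w → ℂ))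
    (h : ∀ c ∈ W0, ∀ u ∈ U, ∑ i, u i * c i = 0) : finrank ℂ U + finrank ℂ W0 ≤ w := by
  classical
  let f : (Fin w → ℂ) →ₗ[ℂ] Module.Dual ℂ (Fin w → ℂ) :=
    LinearMap.mk₂ ℂ (fun u c => ∑ i, u i * c i)
      (by intro a b c; simp [add_mul, Finset.sum_add_distrib])
      (by intro r a c; simp [mul_assoc, Finset.mul_sum])
      (by intro a b c; simp [mul_add, Finset.sum_add_distrib])
      (by
        intro r a c
        simp only [Pi.smul_apply, smul_eq_mul, Finset.mul_sum]
        apply Finset.sum_congr rfl; intro i _; ring)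
  have hf : Function.Injective f := by
    rw [← LinearMap.ker_eq_bot, LinearMap.ker_eq_bot']
    intro u hu
    funext i
    have h1 := congrArg (fun φ : Module.Dual ℂ (Fin w → ℂ) => φ (Pi.single i 1)) hu
    simpa [f, Pi.single_apply] using h1
  let Φ : Submodule ℂ (Module.Dual ℂ (Fin w → ℂ)) := U.map f
  have h1 : finrank ℂ Φ = finrank ℂ U :=
    (LinearEquiv.finrank_eq (Submodule.equivMapOfInjective f hf U)).symm
  have h2 := Subspace.finrank_add_finrank_dualCoannihilator_eq Φ
  have h3 : W0 ≤ Φ.dualCoannihilator := by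
    intro c hc
    rw [Submodule.mem_dualCoannihilator]
    rintro _ ⟨u, hu, rfl⟩
    exact h c hc u hu
  have h4 := Submodule.finrank_mono h3
  rw [finrank_fintype_fun_eq_card, Fintype.card_fin] at h2
  omega

end Pool.Agent.H335R2.Obs
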