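import Mathlib
import Pool.Agent.H335R2.Obs.Final
import Pool.Agent.H335R2.Obs.LinAlg2

/-! Second form of the obstruction theorem (TEAM-TR). -/

open Finset Module

namespace Pool.Agent.H335R2.Obs

/-- the dimension count behind the second form -/
theorem codim_ge {w b : ℕ} (γ : Fin w → Fin b → ℂ) (Af : Submodule ℂ (Fin w → ℂ))
    (Rm : AddSubgroup (Fin b → ℤ)) (W0 : Submodule ℂ (Fin w → ℂ))
    (hW : ∀ c, c ∈ W0 ↔ (∀ a ∈ Af, ∑ i, a i * c i = 0) ∧
        ∀ m ∈ Rm, ∑ j, (m j : ℂ) * ∑ i, c i * γ i j = 0)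
    (N : Submodule ℂ (Fin b → ℂ))
    (hN : ∀ m ∈ kSpan ℂ Rm, (fun i => ∑ j, γ i j * m j) ∈ Af → m ∈ N) :
    finrank ℂ Af + finrank ℤ Rm ≤ (w - finrank ℂ W0) + finrank ℂ N := by
  classical
  let G : (Fin b → ℂ) →ₗ[ℂ] (Fin w → ℂ) :=
    { toFun := fun m i => ∑ j, γ i j * m j
      map_add' := by
        intro m m'; funext i
        simp only [Pi.add_apply, mul_add, Finset.sum_add_distrib]
      map_smul' := by
        intro r m; funext i
        simp only [Pi.smul_apply, smul_eq_mul, RingHom.id_apply, Finset.mul_sum]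
        apply Finset.sum_congr rfl; intro j _; ring }
  let Ψ : (Af × kSpan ℂ Rm) →ₗ[ℂ] (Fin w → ℂ) :=
    Af.subtype.coprod (G.comp (kSpan ℂ Rm).subtype)
  have hΨ : ∀ a m, Ψ (a, m) = (a : Fin w → ℂ) + G m := by
    intro a m; simp [Ψ]
  have h1 := LinearMap.finrank_range_add_finrank_ker Ψ
  rw [finrank_prod, finrank_kSpan] at h1
  -- the kernel
  have h2 : finrank ℂ (LinearMap.ker Ψ) ≤ finrank ℂ N := by
    let f : LinearMap.ker Ψ →ₗ[ℂ] N :=
      { toFun := fun z => ⟨(z.1.2 : Fin b → ℂ), by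
          apply hN _ z.1.2.2
          have h3 : Ψ (z.1.1, z.1.2) = 0 := z.2
          rw [hΨ] at h3
          have h4 : G (z.1.2 : Fin b → ℂ) = -(z.1.1 : Fin w → ℂ) := by
            rw [eq_neg_iff_add_eq_zero, add_comm]; exact h3
          change G (z.1.2 : Fin b → ℂ) ∈ Af
          rw [h4]
          exact Af.neg_mem z.1.1.2⟩
        map_add' := by intro z z'; rfl
        map_smul' := by intro r z; rfl }
    apply LinearMap.finrank_le_finrank_of_injective (f := f)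
    intro z z' hz
    have h5 : (z.1.2 : Fin b → ℂ) = z'.1.2 := congrArg (fun n : N => (n : Fin b → ℂ)) hz
    have h3 : Ψ (z.1.1, z.1.2) = 0 := z.2
    have h3' : Ψ (z'.1.1, z'.1.2) = 0 := z'.2
    rw [hΨ] at h3 h3'
    rw [h5, ← h3'] at h3
    have h6 : (z.1.1 : Fin w → ℂ) = z'.1.1 := add_right_cancel h3
    apply Subtype.ext
    apply Prod.ext
    · exact Subtype.ext h6
    · exact Subtype.ext h5
  -- the orthogonal complement
  have h3 := finrank_orth_le (LinearMap.range Ψ) W0 (by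
    rintro c hc _ ⟨⟨a, m⟩, rfl⟩
    rw [hΨ]
    have hc' := (hW c).mp hc
    simp only [Pi.add_apply, add_mul, Finset.sum_add_distrib, hc'.1 a a.2, zero_add]
    have h4 : ∀ m ∈ kSpan ℂ Rm, ∑ j, (m j : ℂ) * ∑ i, c i * γ i j = 0 := by
      intro m hm
      unfold kSpan at hm
      refine Submodule.span_induction (hx := hm) ?_ ?_ ?_ ?_
      · rintro _ ⟨ρ, hρ, rfl⟩
        exact hc'.2 ρ hρ
      · simp
      · intro x y _ _ hx hy
        simp only [Pi.add_apply, add_mul, Finset.sum_add_distrib, hx, hy, add_zero]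
      · intro r x _ hx
        simp only [Pi.smul_apply, smul_eq_mul, mul_assoc, ← Finset.mul_sum, hx, mul_zero]
    have h5 := h4 m m.2
    rw [← h5]
    change ∑ i, (∑ j, γ i j * (m : Fin b → ℂ) j) * c i = _
    simp only [Finset.sum_mul, Finset.mul_sum]
    rw [Finset.sum_comm]
    apply Finset.sum_congr rfl; intro j _
    apply Finset.sum_congr rfl; intro i _
    ring)
  have h4 : finrank ℂ W0 ≤ w := by
    have := Submodule.finrank_le W0
    rwa [finrank_fintype_fun_eq_card, Fintype.card_fin] at this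
  omega

/-- **Obstruction theorem**, second form. `δ` is the dimension of the image of the algebraic
directions in the quotient. -/
theorem obstruction2 {w b l r : ℕ}
    (A : Finset (Fin w)) (γ : Fin w → Fin b → ℂ) (ω : Fin w → Fin l → ℂ) (u : Fin b → Fin l → ℂ)
    (x : Fin r → Fin b → ℂ) (y : Fin r → Fin l → ℂ)
    (hγ : ∀ i j, IsAlgebraic ℚ (γ i j)) (hω : ∀ i ∈ A, ∀ p, IsAlgebraic ℚ (ω i p))
    (hu : ∀ j p, IsAlgebraic ℚ (Complex.exp (u j p)))
    (huv : ∀ j p, u j p = ∑ ρ, x ρ j * y ρ p + ∑ i, γ i j * ω i p)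
    (κ μ σ : ℕ) (hκ : μ + σ = κ) (hcount : (κ + 1) * (r + w) + 1 ≤ A.card * κ + b * μ) :
    ∃ (Af : Submodule ℂ (Fin w → ℂ)) (Rm : AddSubgroup (Fin b → ℤ))
      (G0 : AddSubgroup (Fin l → ℤ)) (δ : ℕ),
      (∀ a ∈ Af, ∀ i ∉ A, a i = 0) ∧ ¬ (Af = ⊥ ∧ Rm = ⊥) ∧
      (∀ s, s ∈ G0 ↔ (∀ a ∈ Af, ∑ i, a i * ∑ p, ω i p * (s p : ℂ) = 0) ∧
        ∀ m ∈ Rm, ∃ n : ℤ, ∑ j, ∑ p, (m j : ℂ) * (s p : ℂ) * u j p =
          n * (2 * Real.pi * Complex.I)) ∧
      (∀ N : Submodule ℂ (Fin b → ℂ),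
        (∀ m ∈ kSpan ℂ Rm, (fun i => ∑ j, γ i j * m j) ∈ Af → m ∈ N) →
          finrank ℂ Af + finrank ℤ Rm ≤ δ + finrank ℂ N) ∧
      (δ * κ + (l - finrank ℤ G0) * σ < finrank ℂ Af * κ + finrank ℤ Rm * μ ∨
        (δ * κ + (l - finrank ℤ G0) * σ = finrank ℂ Af * κ + finrank ℤ Rm * μ ∧ δ = 0 ∧
            l - finrank ℤ G0 = 0)) := by
  obtain ⟨Af, Rm, W0, G0, h1, h2, h3, h4, h5⟩ :=
    obstruction A γ ω u x y hγ hω hu huv κ μ σ hκ hcount
  exact ⟨Af, Rm, G0, w - finrank ℂ W0, h1, h2, h4, fun N hN => codim_ge γ Af Rm W0 h3 N hN, h5⟩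

end Pool.Agent.H335R2.Obs
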